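import Pool.Agent.A856.BH.Fin3K

/-!
# Simple zeros of bounded height of L-functions of degree two

Let `k` be odd.  For every non-zero Gaussian integer `q` we consider all Hecke characters of `ℚ(i)` of
infinity type `k` (unitarily normalised) whose conductor divides `q`: they correspond to the
characters `χ` of `(ℤ[i]/q)ˣ` with `χ(i) = (-i)^k`, by `ψ((a)) = χ*(a) (a / |a|)^k`, where `χ*` is the
primitive character inducing `χ`.  Their L-functions are primitive of degree two (they belong to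
cuspidal newforms of weight `k+1` with complex multiplication).

We prove that at least 67.25 per cent of the zeros with `|Im s| ≤ T` of all these L-functions, counted
with multiplicity, are simple and on the critical line, for every single `q` and for every `T` between
`C (1 + √(log (N(q)/φ(q))))` and `N(q)^η`, where `C` and `η > 0` depend on `k` only.  The lower limit
for `T` is a constant unless `q` has many small prime factors, and it is `O(√(log log log N(q)))` for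
all `q`.  No average over `q` is needed and nothing is assumed.

Proof.  As in `HeckeEveryModulus.lean` (`k = 1`, `T ≥ C (1 + √(log N(q)))`).  The lower limit for `T`
there comes from the zeros near the end points of the interval, at a distance up to `√(log N(q))`,
whose contribution to the explicit formula was bounded trivially.  Here the inequality between the sums
over the zeros is proved with the zeros far from the interval left out (`Pool/Agent/A856/BH`); the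
contribution of those which are not too far from the critical line is exponentially small in their
distance from the interval, and the number of the other ones is bounded, on the average over the
characters, by Selberg's density theorem for this family (`Pool/Agent/A856/SE`), so that only the
zeros at a bounded distance from the end points are lost.
-/

set_option autoImplicit false

open Complex

namespace Pool.Agent.Results.MP_8ad8be_nt.LowSimpleZeros

/-- `ψ` is (the extension by zero to `ℤ[i]` of) a primitive character of `(ℤ[i]/d)ˣ`, `d ≠ 0` -/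
structure Primitive (d : GaussianInt) (ψ : GaussianInt →* ℂ) : Prop where
  ne_zero : d ≠ 0
  periodic : ∀ a b : GaussianInt, d ∣ a - b → ψ a = ψ b
  support : ∀ a : GaussianInt, ψ a ≠ 0 ↔ IsCoprime a d
  primitive : ∀ e : GaussianInt, e ∣ d → ¬ d ∣ e →
    ∃ a : GaussianInt, IsCoprime a d ∧ e ∣ a - 1 ∧ ψ a ≠ 1

/-- `∑ ψ(a) (a / |a|)^k` over the ideals `(a)` of norm `n`, that is, one fourth of the sum over all
Gaussian integers `a = x + i y` with `x² + y² = n` -/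
noncomputable def coeff (k : ℕ) (ψ : GaussianInt →* ℂ) (n : ℕ) : ℂ :=
  (1 / 4 : ℂ) * ∑ᶠ p ∈ {p : ℤ × ℤ | p.1 ^ 2 + p.2 ^ 2 = (n : ℤ)},
    ψ ⟨p.1, p.2⟩ * (((p.1 : ℂ) + (p.2 : ℂ) * I) / (Real.sqrt n : ℂ)) ^ k

/-- `L` is the (entire) L-function of the Hecke character `(a) ↦ χ*(a) (a / |a|)^k`, where `χ*` is the
primitive character inducing the character `χ` modulo `q` -/
def IsHeckeL (k : ℕ) (q : GaussianInt) (χ : MulChar (GaussianInt ⧸ Ideal.span {q}) ℂ)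
    (L : ℂ → ℂ) : Prop :=
  ∃ (d : GaussianInt) (ψ : GaussianInt →* ℂ), d ∣ q ∧ Primitive d ψ ∧
    (∀ a : GaussianInt, IsCoprime a q → ψ a = χ (Ideal.Quotient.mk (Ideal.span {q}) a)) ∧
    Differentiable ℂ L ∧
    ∀ s : ℂ, 1 < s.re → HasSum (fun n : ℕ => coeff k ψ n * (n : ℂ) ^ (-s)) (L s)

/-- the characters modulo `q` with `χ(i) = (-i)^k` -/
def family (k : ℕ) (q : GaussianInt) : Set (MulChar (GaussianInt ⧸ Ideal.span {q}) ℂ) :=
  {χ | χ (Ideal.Quotient.mk (Ideal.span {q}) ⟨0, 1⟩) = (-I) ^ k}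

/-- the zeros of `F` in the open critical strip with `|Im s| ≤ T` -/
def zeros (F : ℂ → ℂ) (T : ℝ) : Set ℂ := {s : ℂ | 0 < s.re ∧ s.re < 1 ∧ |s.im| ≤ T ∧ F s = 0}

/-- the number of these zeros, with multiplicity -/
noncomputable def N (F : ℂ → ℂ) (T : ℝ) : ℕ := ∑ᶠ s ∈ zeros F T, analyticOrderNatAt F s

/-- the number of those of them that are simple and on the critical line `Re s = 1/2` -/
noncomputable def Nsc (F : ℂ → ℂ) (T : ℝ) : ℕ :=
  {s : ℂ | s ∈ zeros F T ∧ s.re = 1 / 2 ∧ analyticOrderNatAt F s = 1}.ncard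

open H385 (ZI RQ chiZ phiQ nrm im1)
open Pool.Agent.W354.PK (HCk psik LK bK goodK)
open Pool.Agent.Y762.HK (PrimData)
open Pool.Agent.Y762.EG (FQk mem_FQk card_FQk)
open Pool.Agent.A856.BH (FSk bh_finalK exists_gap Wc Lc rho one_cntK mult_trans inj_trans)
open Pool.Agent.A856.SE (Zst_finK hck_of)
open Pool.Agent.H82R3.EK (cnt)
open Pool.Agent.H304R3.HK (tc CS one_le_norm_tc tc_star_mul)
open H370 (zset mult NN Ns)

/-- the coefficients agree with the ones used in the proof -/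
lemma coeff_eq {k : ℕ} (hk : 1 ≤ k) (ψ : GaussianInt →* ℂ) (n : ℕ) : coeff k ψ n = bK k ψ n := by
  have hset : {p : ℤ × ℤ | p.1 ^ 2 + p.2 ^ 2 = (n : ℤ)} =
      ((CS n : Finset (ℤ × ℤ)) : Set (ℤ × ℤ)) := by
    ext p
    simp only [CS, Set.mem_ofPred_eq, Finset.coe_filter, Finset.mem_product, Finset.mem_Icc]
    constructor
    · intro h
      refine ⟨⟨⟨?_, ?_⟩, ⟨?_, ?_⟩⟩, h⟩ <;> nlinarith [sq_nonneg (p.1 - 1), sq_nonneg (p.1 + 1),
        sq_nonneg (p.2 - 1), sq_nonneg (p.2 + 1), sq_nonneg p.1, sq_nonneg p.2]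
    · exact fun h => h.2
  unfold coeff bK Pool.Agent.H304R3.HK.bb
  rw [hset, finsum_mem_coe_finset]
  congr 1
  refine Finset.sum_congr rfl fun p hp => ?_
  have hn : p.1 ^ 2 + p.2 ^ 2 = (n : ℤ) := by
    simp only [CS, Finset.mem_filter] at hp
    exact hp.2
  have htc : tc ⟨p.1, p.2⟩ = (p.1 : ℂ) + (p.2 : ℂ) * I := rfl
  by_cases h0 : (⟨p.1, p.2⟩ : GaussianInt) = 0
  · have h1 : p.1 = 0 := congrArg Zsqrtd.re h0
    have h2 : p.2 = 0 := congrArg Zsqrtd.im h0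
    have h3 : psik k ψ 0 = 0 := by
      show (if (0 : GaussianInt) = 0 then (0 : ℂ) else ψ 0 * (tc 0 / (‖tc 0‖ : ℂ)) ^ k) = 0
      exact if_pos rfl
    have hk0 : k ≠ 0 := by omega
    rw [h0, h3, h1, h2]
    simp [hk0]
  · have h4 : psik k ψ ⟨p.1, p.2⟩ =
        ψ ⟨p.1, p.2⟩ * (tc ⟨p.1, p.2⟩ / (‖tc ⟨p.1, p.2⟩‖ : ℂ)) ^ k := if_neg h0
    rw [h4, htc]
    have h3 : ‖(p.1 : ℂ) + (p.2 : ℂ) * I‖ = Real.sqrt n := by
      rw [← htc, eq_comm, Real.sqrt_eq_iff_mul_self_eq (by positivity) (norm_nonneg _), ← sq,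
        tc_star_mul, Zsqrtd.norm]
      have : ((n : ℤ) : ℝ) = (n : ℝ) := by simp
      rw [← this, ← hn]
      push_cast
      ring
    rw [h3]

lemma family_eq (k : ℕ) (q : GaussianInt) (hq : q ≠ 0) :
    family k q = ((FQk q k : Finset _) : Set (MulChar (GaussianInt ⧸ Ideal.span {q}) ℂ)) := by
  ext χ
  rw [Finset.mem_coe, mem_FQk hq k χ]
  rfl

lemma N_eq (F : ℂ → ℂ) (T : ℝ) : cnt F (Wc T) = N F T := by
  have h : {s : ℂ | s ∈ Wc T ∧ F s = 0} = zeros F T := by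
    ext s
    constructor
    · rintro ⟨⟨h1, h2, h3⟩, h4⟩
      exact ⟨h1, h2, h3, h4⟩
    · rintro ⟨h1, h2, h3, h4⟩
      exact ⟨⟨h1, h2, h3⟩, h4⟩
  unfold cnt N
  rw [h]
  rfl

lemma zeros_finite {k : ℕ} (hk : 1 ≤ k) {d : ZI} {χ : ZI →* ℂ} (H : HCk k d χ) (τ : ℝ) :
    (zeros (LK k χ) τ).Finite := by
  refine (Zst_finK hk H 0 0 τ).subset ?_
  rintro s ⟨h1, h2, h3, h4⟩
  exact ⟨h4, h1, h2, abs_nonneg _, by rw [sub_zero]; exact h3⟩

lemma one_simple {k : ℕ} (hk : 1 ≤ k) {d : ZI} {χ : ZI →* ℂ} (H : HCk k d χ) {τ T : ℝ}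
    (hgap : ∀ ρ : ℂ, LK k χ ρ = 0 → 0 < ρ.re → ρ.re < 1 → |ρ.im| ≤ T / 2 → |ρ.im| ≤ τ) :
    Ns (FSk k χ T) T (2 * T) ≤ Nsc (LK k χ) τ := by
  obtain ⟨c, hc⟩ : ∃ c : ℂ, c = ((3 / 2 * T : ℝ) : ℂ) * I := ⟨_, rfl⟩
  have hcre : c.re = 0 := by rw [hc]; simp
  have hcim : c.im = 3 / 2 * T := by rw [hc]; simp
  have hFS : FSk k χ T = fun z => LK k χ (z - c) := by unfold FSk; rw [← hc]
  obtain ⟨B, hB⟩ : ∃ B : Set ℂ, B = {s : ℂ | s ∈ zeros (LK k χ) τ ∧ s.re = 1 / 2 ∧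
    analyticOrderNatAt (LK k χ) s = 1} := ⟨_, rfl⟩
  have hBf : B.Finite := (zeros_finite hk H τ).subset (by rw [hB]; exact fun s hs => hs.1)
  have hsub : {s : ℂ | s ∈ zset (FSk k χ T) T (2 * T) ∧ s.re = 1 / 2 ∧
      mult (FSk k χ T) s = 1} ⊆ (fun s : ℂ => s + c) '' B := by
    rintro s ⟨⟨h1, h2, h3, h4, h5⟩, h6, h7⟩
    rw [hFS] at h5 h7
    have h5' : LK k χ (s - c) = 0 := h5
    have e1 : (s - c).re = s.re := by rw [sub_re, hcre, sub_zero]
    have e2 : (s - c).im = s.im - 3 / 2 * T := by rw [sub_im, hcim]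
    have e3 := mult_trans (LK k χ) c (s - c)
    rw [sub_add_cancel] at e3
    refine ⟨s - c, ?_, by ring⟩
    rw [hB]
    refine ⟨⟨by rw [e1]; exact h1, by rw [e1]; exact h2, ?_, h5'⟩, by rw [e1]; exact h6, ?_⟩
    · refine hgap _ h5' (by rw [e1]; exact h1) (by rw [e1]; exact h2) ?_
      rw [e2, abs_le]
      constructor <;> linarith
    · rw [e3] at h7
      exact h7
  unfold Ns Nsc
  rw [← hB]
  refine (Set.ncard_le_ncard hsub (hBf.image _)).trans ?_
  exact Set.ncard_image_le hBf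

section
variable (cd : (q : ZI) → MulChar (RQ q) ℂ → ZI)
    (pr : (q : ZI) → MulChar (RQ q) ℂ → (ZI →* ℂ))
    (hprim : ∀ q : ZI, q ≠ 0 → ∀ χ, PrimData q χ (cd q χ) (pr q χ))

include hprim

theorem low (l : ℕ) : ∃ C η : ℝ, 1 ≤ C ∧ 0 < η ∧ ∀ q : ZI, q ≠ 0 → ∀ τ : ℝ,
    C * (1 + Real.sqrt (Real.log (rho q))) ≤ τ → τ ≤ (nrm q : ℝ) ^ η →
    4 < nrm q ∧
      ((FQk q (2 * l + 1)).card : ℝ) * τ * Real.log (nrm q) / 8 ≤
        ∑ χ ∈ FQk q (2 * l + 1), (N (LK (2 * l + 1) (pr q χ)) τ : ℝ) ∧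
      0.6725 * ∑ χ ∈ FQk q (2 * l + 1), (N (LK (2 * l + 1) (pr q χ)) τ : ℝ) ≤
        ∑ χ ∈ FQk q (2 * l + 1), (Nsc (LK (2 * l + 1) (pr q χ)) τ : ℝ) := by
  classical
  obtain ⟨T0, N0, η, hT0, hη, H⟩ := bh_finalK cd pr hprim l
  obtain ⟨C, hC⟩ : ∃ C : ℝ, C = max T0 (max 4 (max (|N0| ^ (η / 4) + 1) ((5 : ℝ) ^ (η / 4) + 1))) :=
    ⟨_, rfl⟩
  have c1 : T0 ≤ C := by rw [hC]; exact le_max_left _ _
  have c2 : 4 ≤ C := by rw [hC]; exact (le_max_left _ _).trans (le_max_right _ _)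
  have c3 : |N0| ^ (η / 4) + 1 ≤ C := by
    rw [hC]; exact ((le_max_left _ _).trans (le_max_right _ _)).trans (le_max_right _ _)
  have c4 : (5 : ℝ) ^ (η / 4) + 1 ≤ C := by
    rw [hC]; exact ((le_max_right _ _).trans (le_max_right _ _)).trans (le_max_right _ _)
  refine ⟨C, η / 4, by linarith, by positivity, ?_⟩
  intro q hq τ hτ1 hτ2
  have hs0 := Real.sqrt_nonneg (Real.log (rho q))
  have hCτ : C ≤ τ := by nlinarith
  have hn0 : (0 : ℝ) ≤ (nrm q : ℝ) := Nat.cast_nonneg _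
  have hη4 : 0 < η / 4 := by positivity
  have hpow : ∀ x : ℝ, 0 ≤ x → x ^ (η / 4) + 1 ≤ C → x < (nrm q : ℝ) := by
    intro x hx h
    have h2 : x ^ (η / 4) < (nrm q : ℝ) ^ (η / 4) := by linarith
    exact (Real.rpow_lt_rpow_iff hx hn0 hη4).1 h2
  have hN1 : N0 ≤ (nrm q : ℝ) := (le_abs_self _).trans (hpow _ (abs_nonneg _) c3).le
  have h5 : (5 : ℝ) < (nrm q : ℝ) := hpow 5 (by norm_num) c4
  have hNp : (0 : ℝ) < (nrm q : ℝ) := by linarith
  have hn4 : 4 < nrm q := by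
    have : (4 : ℝ) < (nrm q : ℝ) := by linarith
    exact_mod_cast this
  have hN4 : 4 ≤ (nrm q : ℝ) ^ (η / 4) := by linarith
  -- the gap
  have hk1 : 1 ≤ 2 * l + 1 := by omega
  obtain ⟨Z, hZd⟩ : ∃ Z : Set ℂ, Z = ⋃ χ ∈ FQk q (2 * l + 1),
    zeros (LK (2 * l + 1) (pr q χ)) (τ + 1) := ⟨_, rfl⟩
  have hZ : Z.Finite := by
    rw [hZd]
    exact Set.Finite.biUnion (FQk q (2 * l + 1)).finite_toSet
      fun χ hχ => zeros_finite hk1 (hck_of cd pr hprim hq χ hχ) _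
  obtain ⟨e, he0, he1, hgap⟩ := exists_gap Z hZ τ
  obtain ⟨T, hT⟩ : ∃ T : ℝ, T = 2 * (τ + e) := ⟨_, rfl⟩
  have hτT : 2 * τ < T := by rw [hT]; linarith
  have hnq : ((nrm q : ℕ) : ℝ) = ‖tc q‖ ^ 2 := H385.nrm_eq q
  have hQ1 : 1 ≤ ‖tc q‖ := one_le_norm_tc hq
  have hQη : ‖tc q‖ ^ η = (nrm q : ℝ) ^ (η / 4) * (nrm q : ℝ) ^ (η / 4) := by
    rw [← Real.rpow_add hNp, hnq, ← Real.rpow_natCast, ← Real.rpow_mul (by linarith)]
    congr 1
    push_cast
    ring
  have hTη : T ≤ ‖tc q‖ ^ η := by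
    rw [hQη, hT]
    have h3 : 4 * (nrm q : ℝ) ^ (η / 4) ≤ (nrm q : ℝ) ^ (η / 4) * (nrm q : ℝ) ^ (η / 4) :=
      mul_le_mul_of_nonneg_right hN4 (by positivity)
    linarith
  have hTa : T0 * (1 + Real.sqrt (Real.log (rho q))) ≤ T := by
    have h3 : T0 * (1 + Real.sqrt (Real.log (rho q))) ≤ C * (1 + Real.sqrt (Real.log (rho q))) :=
      mul_le_mul_of_nonneg_right c1 (by linarith)
    linarith
  obtain ⟨a1, a2⟩ := H q T hN1 hTa hTη
  have hg : ∀ χ ∈ FQk q (2 * l + 1), ∀ ρ : ℂ, LK (2 * l + 1) (pr q χ) ρ = 0 → 0 < ρ.re →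
      ρ.re < 1 → |ρ.im| ≤ T / 2 → |ρ.im| ≤ τ := by
    intro χ hχ ρ h3 h4 h5 h6
    have h7 : |ρ.im| ≤ τ + e := by rw [hT] at h6; linarith
    refine hgap ρ ?_ h7
    rw [hZd]
    exact Set.mem_biUnion (Finset.mem_coe.2 hχ) ⟨h4, h5, by linarith, h3⟩
  have s1 : ∑ χ ∈ FQk q (2 * l + 1), (NN (FSk (2 * l + 1) (pr q χ) T) T (2 * T) : ℝ) =
      ∑ χ ∈ FQk q (2 * l + 1), (N (LK (2 * l + 1) (pr q χ)) τ : ℝ) := by
    refine Finset.sum_congr rfl fun χ hχ => ?_
    rw [← N_eq, (one_cntK hk1 (hck_of cd pr hprim hq χ hχ) hτT (hg χ hχ)).1]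
  have s3 : ∑ χ ∈ FQk q (2 * l + 1), (Ns (FSk (2 * l + 1) (pr q χ) T) T (2 * T) : ℝ) ≤
      ∑ χ ∈ FQk q (2 * l + 1), (Nsc (LK (2 * l + 1) (pr q χ)) τ : ℝ) :=
    Finset.sum_le_sum fun χ hχ => by
      exact_mod_cast one_simple hk1 (hck_of cd pr hprim hq χ hχ) (hg χ hχ)
  rw [s1] at a1 a2
  refine ⟨hn4, ?_, a2.trans s3⟩
  refine le_trans ?_ a1
  have hlog : Real.log (nrm q) = 2 * Real.log ‖tc q‖ := by
    rw [hnq, Real.log_pow]
    push_cast; ring
  rw [hlog]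
  have hl0 : 0 ≤ Real.log ‖tc q‖ := Real.log_nonneg hQ1
  have hp0 : (0 : ℝ) ≤ ((FQk q (2 * l + 1)).card : ℝ) := Nat.cast_nonneg _
  have h3 : 0 ≤ ((FQk q (2 * l + 1)).card : ℝ) * Real.log ‖tc q‖ := mul_nonneg hp0 hl0
  have h4 : (2 * τ) * (((FQk q (2 * l + 1)).card : ℝ) * Real.log ‖tc q‖) ≤
      T * (((FQk q (2 * l + 1)).card : ℝ) * Real.log ‖tc q‖) :=
    mul_le_mul_of_nonneg_right hτT.le h3
  calc ((FQk q (2 * l + 1)).card : ℝ) * τ * (2 * Real.log ‖tc q‖) / 8 =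
      (2 * τ) * (((FQk q (2 * l + 1)).card : ℝ) * Real.log ‖tc q‖) / 8 := by ring
    _ ≤ T * (((FQk q (2 * l + 1)).card : ℝ) * Real.log ‖tc q‖) / 8 := by linarith
    _ = _ := by ring

end

/-- **Main theorem.** Let `k` be odd.  There are entire functions `L q χ`, the L-functions of the Hecke
characters of infinity type `k` whose conductor divides `q`, and constants `C` and `η > 0` such that for
every `q ≠ 0` and every `T` with `C (1 + √(log (N(q) / φ(q)))) ≤ T ≤ N(q)^η` at least 67.25 per cent of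
the zeros of these L-functions with `|Im s| ≤ T`, counted with multiplicity, are simple and on the
critical line; the number of all these zeros is at least `m T log N(q) / 8`, where `m` is the number of
the characters `χ`. -/
theorem result (k : ℕ) (hk : Odd k) :
    ∃ (L : (q : GaussianInt) → MulChar (GaussianInt ⧸ Ideal.span {q}) ℂ → ℂ → ℂ)
    (C η : ℝ), 0 < η ∧ ∀ q : GaussianInt, q ≠ 0 →
      (family k q).Finite ∧ (∀ χ ∈ family k q, IsHeckeL k q χ (L q χ)) ∧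
      ∀ T : ℝ, C * (1 + Real.sqrt (Real.log ((Zsqrtd.norm q : ℝ) /
          Nat.card (GaussianInt ⧸ Ideal.span {q})ˣ))) ≤ T →
        T ≤ (Zsqrtd.norm q : ℝ) ^ η →
        (family k q).Nonempty ∧ (∀ χ ∈ family k q, (zeros (L q χ) T).Finite) ∧
        ((family k q).ncard : ℝ) * T * Real.log (Zsqrtd.norm q : ℝ) / 8 ≤
          ∑ᶠ χ ∈ family k q, (N (L q χ) T : ℝ) ∧
        0.6725 * ∑ᶠ χ ∈ family k q, (N (L q χ) T : ℝ) ≤
          ∑ᶠ χ ∈ family k q, (Nsc (L q χ) T : ℝ) := by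
  classical
  obtain ⟨l, rfl⟩ := hk
  have hk1 : 1 ≤ 2 * l + 1 := by omega
  obtain ⟨A, hA, hgood⟩ := goodK
  obtain ⟨cd, pr, hprim⟩ := Pool.Agent.Y762.HK.exists_prim
  obtain ⟨C, η, hC, hη, H⟩ := low cd pr hprim l
  refine ⟨fun q χ => LK (2 * l + 1) (pr q χ), C, η, hη, fun q hq => ?_⟩
  have hfam := family_eq (2 * l + 1) q hq
  have hnq : (nrm q : ℝ) = (Zsqrtd.norm q : ℝ) := by
    unfold H385.nrm
    rw [Nat.cast_natAbs, abs_of_nonneg (GaussianInt.norm_nonneg q)]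
  refine ⟨by rw [hfam]; exact Finset.finite_toSet _, ?_, ?_⟩
  · intro χ hχ
    rw [hfam, Finset.mem_coe] at hχ
    have h1 := hprim q hq χ
    have h2 := hck_of cd pr hprim hq χ hχ
    obtain ⟨g1, g2, g3, g4⟩ := hgood _ _ _ hk1 h2
    refine ⟨cd q χ, pr q χ, h1.dvd, ⟨h2.q0, h2.per, h2.supp, h2.prim⟩, h1.eq, g1, ?_⟩
    intro s hs
    have := g2 s hs
    simp_rw [coeff_eq hk1]
    exact this
  · intro T hT1 hT2
    rw [← hnq] at hT1 hT2 ⊢
    obtain ⟨b1, b2, b3⟩ := H q hq T hT1 hT2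
    have hcard := card_FQk b1 (2 * l + 1)
    have hφ := Pool.Agent.A856.BH.phi_pos' hq
    refine ⟨?_, ?_, ?_, ?_⟩
    · rw [hfam]
      refine Finset.card_pos.mp ?_
      have : (0 : ℝ) < ((FQk q (2 * l + 1)).card : ℝ) := by rw [hcard]; positivity
      exact_mod_cast this
    · intro χ hχ
      rw [hfam, Finset.mem_coe] at hχ
      exact zeros_finite hk1 (hck_of cd pr hprim hq χ hχ) T
    · rw [hfam, finsum_mem_coe_finset, Set.ncard_coe_finset]
      exact b2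
    · rw [hfam, finsum_mem_coe_finset, finsum_mem_coe_finset]
      exact b3

end Pool.Agent.Results.MP_8ad8be_nt.LowSimpleZeros
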